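import Pool.Agent.J6H1.CG.Stm

/-!
# Item COMB of project CG
-/

set_option autoImplicit false

namespace Pool.Agent.J6H1.CG

open Finset Function Pool.Agent.H832R2.JR

namespace COMB

lemma rr_le_one (m : ℕ) : rr m ≤ 1 := by
  unfold rr
  split_ifs with h
  · exact le_rfl
  · have h1 : (1 : ℝ) ≤ √(m : ℝ) := by
      rw [Real.one_le_sqrt]
      exact_mod_cast Nat.one_le_iff_ne_zero.2 h
    rw [div_le_one (by linarith)]
    exact h1

lemma rr_le_of_le {m s : ℕ} (hs : 1 ≤ s) (h : s ≤ m) : rr m ≤ 1 / √(s : ℝ) := by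
  unfold rr
  rw [if_neg (by omega)]
  have h1 : (0 : ℝ) < s := by exact_mod_cast hs
  refine one_div_le_one_div_of_le (Real.sqrt_pos.2 h1) (Real.sqrt_le_sqrt ?_)
  exact_mod_cast h

lemma rr_le_half {m n : ℕ} (hn : 1 ≤ n) (h : n ≤ 2 * m) : rr m ≤ 2 / √(n : ℝ) := by
  unfold rr
  rw [if_neg (by omega)]
  have h1 : (0 : ℝ) < n := by exact_mod_cast hn
  have h2 : (0 : ℝ) < m := by
    have : 0 < m := by omega
    exact_mod_cast this
  have h3 : (n : ℝ) ≤ 2 * m := by exact_mod_cast h
  rw [div_le_div_iff₀ (Real.sqrt_pos.2 h2) (Real.sqrt_pos.2 h1), one_mul]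
  have h4 : √(n : ℝ) ≤ √(2 ^ 2 * (m : ℝ)) := Real.sqrt_le_sqrt (by linarith)
  rw [Real.sqrt_mul (by norm_num), Real.sqrt_sq (by norm_num)] at h4
  exact h4

lemma low_pow (s : ℕ) : ((5 : ℝ) / 6) ^ (8 * s) ≤ Real.exp (-(s : ℝ)) := by
  rw [pow_mul]
  have h1 : ((5 : ℝ) / 6) ^ 8 ≤ Real.exp (-1) := by
    rw [Real.exp_neg]
    have h2 := Real.exp_one_lt_d9
    have h3 := Real.exp_pos 1
    have h4 : ((5 : ℝ) / 6) ^ 8 ≤ (2.7182818286)⁻¹ := by norm_num
    exact h4.trans (inv_anti₀ h3 h2.le)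
  calc (((5 : ℝ) / 6) ^ 8) ^ s ≤ (Real.exp (-1)) ^ s := pow_le_pow_left₀ (by norm_num) h1 s
    _ = Real.exp (-(s : ℝ)) := by
      rw [← Real.exp_nat_mul]
      congr 1
      ring

lemma log_ge_one {n : ℕ} (hn : 1 ≤ n) : 1 ≤ Real.log ((n : ℝ) + 2) := by
  rw [Real.le_log_iff_exp_le (by positivity)]
  have h2 := Real.exp_one_lt_d9
  have h3 : (1 : ℝ) ≤ n := by exact_mod_cast hn
  linarith

end COMB

open Classical in
open COMB in
/-- Item COMB. -/
theorem t_COMB : S_COMB := by
  intro hLOW hHIGH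
  refine ⟨36, by norm_num, ?_⟩
  intro N ι _ _ A u v D hM hD hrd hmd hn
  set n : ℕ := Fintype.card ι with hndef
  have hlow := hLOW N ι _ _ A u v (2 * D) (n / (8 * (2 * (2 * D) + 1))) hM hmd (by
    have h := Nat.div_mul_le_self n (8 * (2 * (2 * D) + 1))
    calc 8 * (n / (8 * (2 * (2 * D) + 1))) * (2 * (2 * D) + 1)
        = n / (8 * (2 * (2 * D) + 1)) * (8 * (2 * (2 * D) + 1)) := by ring
      _ ≤ n := h)
  have hhigh := hHIGH N ι _ _ A u D hD hrd
  set s : ℕ := n / (8 * (2 * (2 * D) + 1)) with hs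
  have hnR : (1 : ℝ) ≤ n := by exact_mod_cast hn
  have hn0 : (0 : ℝ) < n := by linarith
  have hDR : (1 : ℝ) ≤ D := by exact_mod_cast hD
  have hD0 : (0 : ℝ) < D := by linarith
  have hL := log_ge_one hn
  set L : ℝ := Real.log ((n : ℝ) + 2) with hLdef
  set x : ℝ := √(L / n) with hx
  have hsn : 0 < √(n : ℝ) := Real.sqrt_pos.2 hn0
  have hx1 : 1 / √(n : ℝ) ≤ x := by
    rw [hx, Real.sqrt_div (by linarith)]
    refine div_le_div_of_nonneg_right ?_ hsn.le
    rw [Real.one_le_sqrt]
    exact hL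
  have hx0 : 0 < x := lt_of_lt_of_le (by positivity) hx1
  -- s + 1 > n / (40 D)
  have hs1 : (n : ℝ) < ((s : ℝ) + 1) * (40 * D) := by
    have h1 : n < (s + 1) * (8 * (2 * (2 * D) + 1)) := by
      have := Nat.lt_div_mul_add (a := n) (b := 8 * (2 * (2 * D) + 1)) (by positivity)
      rw [← hs] at this
      calc n < s * (8 * (2 * (2 * D) + 1)) + 8 * (2 * (2 * D) + 1) := this
        _ = (s + 1) * (8 * (2 * (2 * D) + 1)) := by ring
    have h2 : (n : ℝ) < ((s : ℝ) + 1) * (8 * (2 * (2 * D) + 1)) := by exact_mod_cast h1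
    refine lt_of_lt_of_le h2 ?_
    refine mul_le_mul_of_nonneg_left ?_ (by positivity)
    linarith
  have hcard : ((univ : Finset ((Fin N → Bool) × (Fin N → Bool))).card : ℝ) = 4 ^ N := by
    rw [Finset.card_univ, Fintype.card_prod, Fintype.card_fun, Fintype.card_bool, Fintype.card_fin]
    push_cast
    rw [← mul_pow]
    norm_num
  have h4N : (0 : ℝ) < 4 ^ N := by positivity
  by_cases hcase : (s : ℝ) < 6 * L
  · -- case 1
    have hDL : (n : ℝ) < 280 * (L * D) := by
      refine lt_of_lt_of_le hs1 ?_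
      have h1 : (s : ℝ) + 1 ≤ 7 * L := by linarith
      calc ((s : ℝ) + 1) * (40 * D) ≤ (7 * L) * (40 * D) :=
            mul_le_mul_of_nonneg_right h1 (by positivity)
        _ = 280 * (L * D) := by ring
    have h2 : 2 / √(D : ℝ) ≤ 34 * x := by
      have hsD : 0 < √(D : ℝ) := Real.sqrt_pos.2 hD0
      rw [div_le_iff₀ hsD, mul_assoc, hx, ← Real.sqrt_mul (by positivity)]
      have h3 : (1 : ℝ) / 17 ≤ √(L / n * D) := by
        refine Real.le_sqrt_of_sq_le ?_
        rw [div_mul_eq_mul_div, le_div_iff₀ hn0]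
        norm_num
        linarith
      linarith
    have hpt : ∀ p : (Fin N → Bool) × (Fin N → Bool), rr (nz A u p) ≤
        (if 2 * nz A u p < n then 1 else 0) + 2 / √(n : ℝ) := by
      intro p
      have h3 : 0 ≤ 2 / √(n : ℝ) := by positivity
      split_ifs with h
      · have := rr_le_one (nz A u p); linarith
      · have := rr_le_half hn (not_lt.1 h); linarith
    calc ∑ p : (Fin N → Bool) × (Fin N → Bool), rr (nz A u p)
        ≤ ∑ p : (Fin N → Bool) × (Fin N → Bool),
          ((if 2 * nz A u p < n then (1 : ℝ) else 0) + 2 / √(n : ℝ)) :=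
          Finset.sum_le_sum fun p _ => hpt p
      _ = ((univ.filter fun p => 2 * nz A u p < n).card : ℝ) + 4 ^ N * (2 / √(n : ℝ)) := by
          rw [Finset.sum_add_distrib, Finset.sum_const, nsmul_eq_mul, hcard, Finset.sum_boole]
      _ ≤ 4 ^ N * (34 * x) + 4 ^ N * (2 * x) := by
          refine add_le_add (hhigh.trans (mul_le_mul_of_nonneg_left h2 h4N.le))
            (mul_le_mul_of_nonneg_left ?_ h4N.le)
          have : 2 / √(n : ℝ) = 2 * (1 / √(n : ℝ)) := by ring
          rw [this]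
          linarith
      _ = 4 ^ N * (36 * x) := by ring
  · -- case 2
    have hcase' : 6 * L ≤ (s : ℝ) := not_lt.1 hcase
    have hs6 : (6 : ℝ) ≤ s := by linarith
    have hs0 : (0 : ℝ) < s := by linarith
    have hs1' : 1 ≤ s := by
      have : (0 : ℝ) < (s : ℝ) := hs0
      exact_mod_cast Nat.one_le_iff_ne_zero.2 (by rintro h; rw [h] at this; simp at this)
    have hDs : (n : ℝ) ≤ 81 * (D * s) := by
      have h1 : (s : ℝ) + 1 ≤ 2 * s := by linarith
      have h2 : ((s : ℝ) + 1) * (40 * D) ≤ (2 * s) * (40 * D) :=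
        mul_le_mul_of_nonneg_right h1 (by positivity)
      have h3 : (2 * (s : ℝ)) * (40 * D) = 80 * (D * s) := by ring
      have h4 : 0 < (D : ℝ) * s := by positivity
      linarith
    have hsD : 0 < √(D : ℝ) := Real.sqrt_pos.2 hD0
    have hss : 0 < √(s : ℝ) := Real.sqrt_pos.2 hs0
    have h2 : (2 / √(D : ℝ)) * (1 / √(s : ℝ)) ≤ 18 * (1 / √(n : ℝ)) := by
      rw [div_mul_div_comm, mul_one, ← Real.sqrt_mul hD0.le, mul_one_div,
        div_le_div_iff₀ (Real.sqrt_pos.2 (by positivity)) hsn]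
      have h3 : √(n : ℝ) ≤ √(9 ^ 2 * (D * s : ℝ)) := Real.sqrt_le_sqrt (by linarith)
      rw [Real.sqrt_mul (by norm_num), Real.sqrt_sq (by norm_num)] at h3
      linarith
    have h3 : ((5 : ℝ) / 6) ^ (8 * s) ≤ 1 / √(n : ℝ) := by
      refine (low_pow s).trans ?_
      have h4 : Real.exp (-(s : ℝ)) ≤ Real.exp (-L) := Real.exp_le_exp.2 (by linarith)
      refine h4.trans ?_
      rw [Real.exp_neg, hLdef, Real.exp_log (by positivity), ← one_div]
      refine one_div_le_one_div_of_le hsn ?_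
      rw [Real.sqrt_le_left (by positivity)]
      nlinarith
    have hpt : ∀ p : (Fin N → Bool) × (Fin N → Bool), rr (nz A u p) ≤
        (if nz A u p < s then 1 else 0) + (if 2 * nz A u p < n then 1 else 0) * (1 / √(s : ℝ)) +
          2 / √(n : ℝ) := by
      intro p
      have h5 : 0 ≤ 2 / √(n : ℝ) := by positivity
      have h6 : 0 ≤ 1 / √(s : ℝ) := by positivity
      split_ifs with h h' h'
      · have := rr_le_one (nz A u p); linarith
      · have := rr_le_one (nz A u p); linarith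
      · have := rr_le_of_le hs1' (not_lt.1 h); linarith
      · have := rr_le_half hn (not_lt.1 h'); linarith
    calc ∑ p : (Fin N → Bool) × (Fin N → Bool), rr (nz A u p)
        ≤ ∑ p : (Fin N → Bool) × (Fin N → Bool), ((if nz A u p < s then (1 : ℝ) else 0) +
          (if 2 * nz A u p < n then 1 else 0) * (1 / √(s : ℝ)) + 2 / √(n : ℝ)) :=
          Finset.sum_le_sum fun p _ => hpt p
      _ = ((univ.filter fun p => nz A u p < s).card : ℝ) +
          ((univ.filter fun p => 2 * nz A u p < n).card : ℝ) * (1 / √(s : ℝ)) +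
            4 ^ N * (2 / √(n : ℝ)) := by
          rw [Finset.sum_add_distrib, Finset.sum_add_distrib, Finset.sum_const, nsmul_eq_mul, hcard,
            ← Finset.sum_mul, Finset.sum_boole, Finset.sum_boole]
      _ ≤ 4 ^ N * x + 4 ^ N * (18 * x) + 4 ^ N * (2 * x) := by
          refine add_le_add (add_le_add ?_ ?_) (mul_le_mul_of_nonneg_left ?_ h4N.le)
          · exact hlow.trans (mul_le_mul_of_nonneg_left (h3.trans hx1) h4N.le)
          · refine (mul_le_mul_of_nonneg_right hhigh (by positivity)).trans ?_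
            rw [mul_assoc]
            refine mul_le_mul_of_nonneg_left (h2.trans ?_) h4N.le
            linarith
          · have : 2 / √(n : ℝ) = 2 * (1 / √(n : ℝ)) := by ring
            rw [this]
            linarith
      _ ≤ 4 ^ N * (36 * x) := by
          have : 0 < 4 ^ N * x := by positivity
          linarith

end Pool.Agent.J6H1.CG
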