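import Pool.Agent.J6H1.CG.Stm

/-!
# Decoupling
-/

set_option autoImplicit false

namespace Pool.Agent.J6H1.CG

open Finset Function Pool.Agent.H832R2.JR

theorem t_DEC : S_DEC := by
  intro N ι _ _ A u c hA hu
  classical
  have h1 := decouple A u hu c
  have hpow : (0 : ℝ) < 2 ^ Fintype.card ι := by positivity
  have h2 : ∀ y y' : Fin N → Bool,
      ((univ.filter fun x : ι → Bool => Q A (extend u x y) = Q A (extend u x y')).card : ℝ) ≤
      2 ^ Fintype.card ι * rr (nz A u (y, y')) := by
    intro y y'
    obtain ⟨b, hb⟩ := Q_diff A hA u hu y y'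
    by_cases h : nz A u (y, y') = 0
    · rw [h, rr, if_pos rfl, mul_one]
      have := card_le_univ (univ.filter fun x : ι → Bool =>
        Q A (extend u x y) = Q A (extend u x y'))
      rw [Fintype.card_fun, Fintype.card_bool] at this
      exact_mod_cast this
    · have hs' : 0 < √((nz A u (y, y') : ℕ) : ℝ) :=
        Real.sqrt_pos.2 (by exact_mod_cast Nat.pos_of_ne_zero h)
      rw [rr, if_neg h, mul_one_div, le_div_iff₀ hs']
      have h3 : (univ.filter fun x : ι → Bool => Q A (extend u x y) = Q A (extend u x y')).card ≤
          (univ.filter fun x : ι → Bool => ∑ k, sgn (x k) * (2 * coef A u y y' k) = -b).card := by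
        refine card_le_card fun x hx => ?_
        rw [mem_filter] at hx ⊢
        refine ⟨hx.1, ?_⟩
        have h5 := hb x
        rw [hx.2, sub_self] at h5
        have h6 : ∑ k, sgn (x k) * (2 * coef A u y y' k) = 2 * ∑ k, sgn (x k) * coef A u y y' k := by
          rw [mul_sum]
          exact sum_congr rfl fun k _ => by ring
        rw [h6]
        linarith
      have h4 := LO (fun k => 2 * coef A u y y' k) (-b)
      have h5 : (univ.filter fun k => 2 * coef A u y y' k ≠ 0).card = nz A u (y, y') := by
        unfold nz
        congr 1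
        ext k
        simp
      rw [h5] at h4
      refine le_trans ?_ h4
      gcongr
  have h3 : ∑ y : Fin N → Bool, ∑ y' : Fin N → Bool,
      ((univ.filter fun x : ι → Bool => Q A (extend u x y) = Q A (extend u x y')).card : ℝ) ≤
      2 ^ Fintype.card ι * ∑ p : (Fin N → Bool) × (Fin N → Bool), rr (nz A u p) := by
    refine (sum_le_sum fun y _ => sum_le_sum fun y' _ => h2 y y').trans (le_of_eq ?_)
    rw [← Fintype.sum_prod_type' (f := fun y y' => 2 ^ Fintype.card ι * rr (nz A u (y, y'))),
      mul_sum]
  have h4 := h1.trans h3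
  rw [mul_comm] at h4
  exact le_of_mul_le_mul_left h4 hpow

end Pool.Agent.J6H1.CG
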