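import Pool.Agent.J6H1.CG.GEN

/-!
# Canonical genus: the assembly
-/

set_option autoImplicit false

namespace Pool.Agent.J6H1.CG.FIN

open Finset Function Pool.Agent.H832R2.JR LaurentPolynomial

variable {N : ℕ}

open Classical in
/-- the number of choices of the crossings with given bracket is at most the number of zeros of a
quadratic form -/
theorem card_le (G : GaussWord N) (F : ℤ[T;T⁻¹]) (i₀ : Fin N) : ∃ c : ℤ,
    (Nat.card {w : Fin N → Bool // fPoly G w = F} : ℝ) ≤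
      ((univ.filter fun w => Q (adjm G) w = c).card : ℝ) := by
  obtain ⟨K, hK⟩ := second_moment G i₀
  by_cases hne : ∃ w₀ : Fin N → Bool, fPoly G w₀ = F
  · obtain ⟨w₀, hw₀⟩ := hne
    refine ⟨Q (adjm G) w₀, ?_⟩
    rw [Nat.card_eq_fintype_card, Fintype.card_subtype]
    refine Nat.cast_le.2 (Finset.card_le_card fun w hw => ?_)
    rw [Finset.mem_filter] at hw ⊢
    refine ⟨hw.1, ?_⟩
    have e1 := hK w
    have e2 := hK w₀
    rw [hw.2] at e1
    rw [hw₀] at e2
    linarith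
  · have h4 : IsEmpty {w : Fin N → Bool // fPoly G w = F} := ⟨fun w => hne ⟨w.1, w.2⟩⟩
    refine ⟨0, ?_⟩
    rw [Nat.card_eq_zero.2 (Or.inl h4), Nat.cast_zero]
    positivity

theorem card_triv (G : GaussWord N) (F : ℤ[T;T⁻¹]) :
    (Nat.card {w : Fin N → Bool // fPoly G w = F} : ℝ) ≤ 2 ^ N := by
  classical
  have h : Nat.card {w : Fin N → Bool // fPoly G w = F} ≤ Nat.card (Fin N → Bool) :=
    Nat.card_le_card_of_injective _ Subtype.val_injective
  rw [Nat.card_eq_fintype_card (α := Fin N → Bool), Fintype.card_fun, Fintype.card_bool,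
    Fintype.card_fin] at h
  exact_mod_cast h

/-- the genus of the Seifert surface -/
noncomputable def gen (G : GaussWord N) : ℝ := ((N : ℝ) + 1 - loops G (fun _ => true)) / 2

theorem main (hQ : ∃ C : ℝ, 0 < C ∧
    ∀ (N m : ℕ) (A : Fin N → Fin N → ℤ) (u v : Fin m → Fin N) (c : ℤ), Mat A u v → 1 ≤ m →
    ((univ.filter fun w => Q A w = c).card : ℝ) * (m : ℝ) ^ (1 / 4 : ℝ) ≤
      C * √(Real.log (m + 2)) * 2 ^ N) :
    ∃ C : ℝ, 0 < C ∧ ∀ (N : ℕ) (G : GaussWord N) (F : ℤ[T;T⁻¹]),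
      (∀ (m : ℕ) (u v : Fin m → Fin N), IsMatching G u v →
        (Nat.card {w : Fin N → Bool // fPoly G w = F} : ℝ) * (m : ℝ) ^ (1 / 4 : ℝ) ≤
          C * √(Real.log (2 + m)) * 2 ^ N) ∧
      (Nat.card {w : Fin N → Bool // fPoly G w = F} : ℝ) * (1 + gen G) ^ (1 / 4 : ℝ) ≤
          C * √(Real.log (2 + gen G)) * 2 ^ N := by
  classical
  obtain ⟨C, hC, hQ⟩ := hQ
  have hlog2 : (1 / 2 : ℝ) ≤ √(Real.log 2) := by
    apply Real.le_sqrt_of_sq_le
    have := Real.log_two_gt_d9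
    norm_num
    linarith
  -- matchings
  have hM : ∀ (N : ℕ) (G : GaussWord N) (F : ℤ[T;T⁻¹]) (m : ℕ) (u v : Fin m → Fin N),
      IsMatching G u v → (Nat.card {w : Fin N → Bool // fPoly G w = F} : ℝ) *
        (m : ℝ) ^ (1 / 4 : ℝ) ≤ C * √(Real.log (m + 2)) * 2 ^ N := by
    intro N G F m u v huv
    rcases Nat.eq_zero_or_pos m with rfl | hm
    · rw [Nat.cast_zero, Real.zero_rpow (by norm_num), mul_zero]
      positivity
    · obtain ⟨c, hc⟩ := card_le G F (u ⟨0, hm⟩)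
      have hmat : Mat (adjm G) u v := by
        refine ⟨adjm_symm G, huv.1, huv.2.1, huv.2.2.1, fun k => ?_⟩
        unfold adjm
        rw [if_pos (huv.2.2.2 k)]
        exact one_ne_zero
      have h1 := hQ N m (adjm G) u v c hmat hm
      refine le_trans ?_ h1
      gcongr
  refine ⟨4 * C + 4, by linarith, fun N G F => ⟨fun m u v huv => ?_, ?_⟩⟩
  · refine (hM N G F m u v huv).trans ?_
    rw [add_comm (m : ℝ) 2]
    have : (0 : ℝ) ≤ √(Real.log (2 + m)) := Real.sqrt_nonneg _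
    have h2N : (0 : ℝ) < 2 ^ N := by positivity
    gcongr
    linarith
  · have htriv := card_triv G F
    have hcard0 : (0 : ℝ) ≤ Nat.card {w : Fin N → Bool // fPoly G w = F} := by positivity
    have h2N : (0 : ℝ) < 2 ^ N := by positivity
    have hg0 : 0 ≤ gen G := by
      unfold gen
      have := GEN.loops_le G
      have h : ((loops G fun _ => true : ℕ) : ℝ) ≤ ((N + 1 : ℕ) : ℝ) := Nat.cast_le.2 this
      push_cast at h
      linarith
    have hsmall : gen G ≤ 1 / 2 → (Nat.card {w : Fin N → Bool // fPoly G w = F} : ℝ) *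
        (1 + gen G) ^ (1 / 4 : ℝ) ≤ (4 * C + 4) * √(Real.log (2 + gen G)) * 2 ^ N := by
      intro hg
      have h1 : (1 + gen G) ^ (1 / 4 : ℝ) ≤ 2 := by
        calc (1 + gen G) ^ (1 / 4 : ℝ) ≤ (1 + gen G) ^ (1 : ℝ) :=
              Real.rpow_le_rpow_of_exponent_le (by linarith) (by norm_num)
          _ = 1 + gen G := Real.rpow_one _
          _ ≤ 2 := by linarith
      have h2 : (1 / 2 : ℝ) ≤ √(Real.log (2 + gen G)) :=
        hlog2.trans (Real.sqrt_le_sqrt (Real.log_le_log (by norm_num) (by linarith)))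
      have h3 : (2 : ℝ) ≤ (4 * C + 4) * √(Real.log (2 + gen G)) := by nlinarith
      calc (Nat.card {w : Fin N → Bool // fPoly G w = F} : ℝ) * (1 + gen G) ^ (1 / 4 : ℝ)
          ≤ 2 ^ N * 2 := by gcongr
        _ = 2 * 2 ^ N := by ring
        _ ≤ _ := by gcongr
    rcases Nat.eq_zero_or_pos N with rfl | hN
    · refine hsmall ?_
      unfold gen
      have : (0 : ℝ) ≤ ((loops G fun _ => true : ℕ) : ℝ) := Nat.cast_nonneg _
      push_cast
      linarith
    obtain ⟨m, u, v, huv, hm⟩ := GEN.genus_le_matching G hN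
    have hm' : gen G ≤ 2 * m := by
      unfold gen
      have h : ((N + 1 : ℕ) : ℝ) ≤ ((loops G (fun _ => true) + 4 * m : ℕ) : ℝ) := Nat.cast_le.2 hm
      push_cast at h
      linarith
    by_cases hg : gen G ≤ 1 / 2
    · exact hsmall hg
    push Not at hg
    set m0 := ⌈gen G / 2⌉₊ with hm0
    have hm0m : m0 ≤ m := Nat.ceil_le.2 (by linarith)
    have hm01 : 1 ≤ m0 := Nat.one_le_iff_ne_zero.2 (by
      intro h
      have := Nat.ceil_eq_zero.1 (hm0 ▸ h : ⌈gen G / 2⌉₊ = 0)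
      linarith)
    have hm0l : gen G / 2 ≤ m0 := Nat.le_ceil _
    have hm0u : (m0 : ℝ) < gen G / 2 + 1 := Nat.ceil_lt_add_one (by linarith)
    have hm01' : (1 : ℝ) ≤ m0 := by exact_mod_cast hm01
    have huv0 : IsMatching G (u ∘ Fin.castLE hm0m) (v ∘ Fin.castLE hm0m) :=
      ⟨huv.1.comp (Fin.castLE_injective hm0m), huv.2.1.comp (Fin.castLE_injective hm0m),
        fun k l => huv.2.2.1 _ _, fun k => huv.2.2.2 _⟩
    have h1 := hM N G F m0 _ _ huv0
    have h2 : (1 + gen G) ^ (1 / 4 : ℝ) ≤ 2 * (m0 : ℝ) ^ (1 / 4 : ℝ) := by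
      calc (1 + gen G) ^ (1 / 4 : ℝ) ≤ (16 * (m0 : ℝ)) ^ (1 / 4 : ℝ) :=
            Real.rpow_le_rpow (by linarith) (by linarith) (by norm_num)
        _ = 16 ^ (1 / 4 : ℝ) * (m0 : ℝ) ^ (1 / 4 : ℝ) :=
            Real.mul_rpow (by norm_num) (by positivity)
        _ = 2 * (m0 : ℝ) ^ (1 / 4 : ℝ) := by
            congr 1
            rw [show (16 : ℝ) = 2 ^ (4 : ℝ) by norm_num, ← Real.rpow_mul (by norm_num)]
            norm_num
    have h3 : √(Real.log (m0 + 2)) ≤ 2 * √(Real.log (2 + gen G)) := by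
      have hl : Real.log (m0 + 2) ≤ 2 * Real.log (2 + gen G) := by
        rw [← Real.log_rpow (by linarith)]
        refine Real.log_le_log (by linarith) ?_
        rw [Real.rpow_two]
        nlinarith
      have hl0 : 0 ≤ Real.log (2 + gen G) := Real.log_nonneg (by linarith)
      calc √(Real.log (m0 + 2)) ≤ √(2 ^ 2 * Real.log (2 + gen G)) :=
            Real.sqrt_le_sqrt (by linarith)
        _ = 2 * √(Real.log (2 + gen G)) := by
            rw [Real.sqrt_mul (by norm_num), Real.sqrt_sq (by norm_num)]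
    calc (Nat.card {w : Fin N → Bool // fPoly G w = F} : ℝ) * (1 + gen G) ^ (1 / 4 : ℝ)
        ≤ (Nat.card {w : Fin N → Bool // fPoly G w = F} : ℝ) * (2 * (m0 : ℝ) ^ (1 / 4 : ℝ)) := by
          gcongr
      _ = 2 * ((Nat.card {w : Fin N → Bool // fPoly G w = F} : ℝ) * (m0 : ℝ) ^ (1 / 4 : ℝ)) := by
          ring
      _ ≤ 2 * (C * √(Real.log (m0 + 2)) * 2 ^ N) := by gcongr
      _ ≤ 2 * (C * (2 * √(Real.log (2 + gen G))) * 2 ^ N) := by gcongr
      _ = 4 * C * √(Real.log (2 + gen G)) * 2 ^ N := by ring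
      _ ≤ _ := by
          have : (0 : ℝ) ≤ √(Real.log (2 + gen G)) := Real.sqrt_nonneg _
          gcongr
          linarith

end Pool.Agent.J6H1.CG.FIN
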