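import Pool.Agent.J6H1.CG.Stm

/-!
# Canonical genus and matchings in the graph of crossing chords

A shadow with `N` crossings and `s` Seifert circles has at least `(N + 1 - s) / 4` disjoint pairs of
crossing chords.
-/

set_option autoImplicit false

namespace Pool.Agent.J6H1.CG.GEN

open Finset Function Pool.Agent.H832R2.JR

variable {N : ℕ}

/-- there are at least as many curves as values of an invariant function -/
theorem card_le_L (G : GaussWord N) (t : Fin N → Fin 3) {α : Type} (f : Half N → α)
    (h1 : ∀ x, f (arcFun G x) = f x) (h2 : ∀ x, f (smooth t x) = f x) {ι : Type} [Fintype ι]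
    (p : ι → Half N) (hp : Injective fun i => f (p i)) : Fintype.card ι ≤ L G t := by
  have : Finite (Quot (gen (arcFun G) (smooth t))) := Quot.finite _
  have h3 : ∀ a b, gen (arcFun G) (smooth t) a b → f a = f b := by
    rintro a b (rfl | rfl)
    · exact (h1 a).symm
    · exact (h2 a).symm
  have h4 : Injective fun i : ι => Quot.mk (gen (arcFun G) (smooth t)) (p i) := by
    intro i j h
    exact hp (congrArg (Quot.lift f h3) h)
  have h5 := Nat.card_le_card_of_injective _ h4
  rw [Nat.card_eq_fintype_card] at h5
  exact h5

/-- smooth the chords in `R` in the oriented way and pass straight through the other crossings -/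
def tR (R : Finset (Fin N)) (c : Fin N) : Fin 3 := if c ∈ R then 1 else 0

open Classical in
theorem laminar (G : GaussWord N) (R : Finset (Fin N)) (hR : ∀ i ∈ R, ∀ j ∈ R, ¬ Crosses G i j)
    (hN : 0 < N) : R.card + 1 ≤ L G (tR R) := by
  classical
  have h2N : 0 < 2 * N := by omega
  let f : Half N → Fin N → Bool := fun x i => decide (i ∈ R) && chi G i x
  let b : Fin N → Bool := fun r => decide ((G (r, true) : ℕ) < G (r, false))
  let p : Option R → Half N := fun o => match o with
    | none => (G.symm ⟨0, h2N⟩, false)
    | some r => ((r.1, b r.1), true)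
  have key := card_le_L G (tR R) f ?_ ?_ p ?_
  · rw [Fintype.card_option, Fintype.card_coe] at key
    exact key
  · intro x
    funext i
    simp only [f, chi_arc]
  · rintro ⟨⟨c, b⟩, e⟩
    funext i
    simp only [f]
    by_cases hi : i ∈ R
    · simp only [hi, decide_true, Bool.true_and]
      by_cases hc : c ∈ R
      · simp only [smooth, tR, hc, if_true]
        have h10 : (1 : Fin 3) ≠ 0 := by decide
        rw [if_neg h10]
        by_cases hic : c = i
        · subst hic
          exact chi_self_or G c b e
        · rw [chi_pass G i c hic (!b) e]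
          exact (chi_other G i c hic b e).2 (hR i hi c hc)
      · simp only [smooth, tR, hc, if_false, if_true]
        have hic : c ≠ i := fun h => hc (h ▸ hi)
        exact chi_pass G i c hic b e
    · simp [hi]
  · -- injectivity
    have hnone : ∀ i, chi G i (G.symm ⟨0, h2N⟩, false) = false := by
      intro i
      simp [chi]
    have hself : ∀ r : Fin N, chi G r ((r, b r), true) = true := by
      intro r
      have h1 := pos_ne G (x := (r, false)) (y := (r, true)) (by simp)
      show (xor (decide ((G (r, false) : ℕ) ≤ G (r, b r))) (decide ((G (r, true) : ℕ) ≤ G (r, b r))))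
        = true
      rw [xor_dec]
      by_cases h : (G (r, true) : ℕ) < G (r, false)
      · have hb : b r = true := decide_eq_true h
        rw [hb]
        omega
      · have hb : b r = false := by simp [b]; omega
        rw [hb]
        omega
    have hmin : ∀ r : Fin N, ∀ y : Half N, chi G r y = true →
        ∀ q, y = (q, true) → (G (r, b r) : ℕ) ≤ G q := by
      rintro r y hy q rfl
      have h1 := pos_ne G (x := (r, false)) (y := (r, true)) (by simp)
      change (xor (decide ((G (r, false) : ℕ) ≤ G q)) (decide ((G (r, true) : ℕ) ≤ G q))) = true at hy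
      rw [xor_dec] at hy
      by_cases h : (G (r, true) : ℕ) < G (r, false)
      · have hb : b r = true := decide_eq_true h
        rw [hb]
        omega
      · have hb : b r = false := by simp [b]; omega
        rw [hb]
        omega
    intro o o' h
    have hval : ∀ i, f (p o) i = f (p o') i := fun i => congrFun h i
    rcases o with _ | r <;> rcases o' with _ | r'
    · rfl
    · have := hval r'
      simp only [f, p, hnone, hself, r'.2, decide_true, Bool.and_false, Bool.and_true] at this
      exact absurd this (by decide)
    · have := hval r
      simp only [f, p, hnone, hself, r.2, decide_true, Bool.and_false, Bool.and_true] at this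
      exact absurd this (by decide)
    · congr 1
      apply Subtype.ext
      by_contra hne
      have e1 := hval r
      have e2 := hval r'
      simp only [f, p, hself, r.2, r'.2, decide_true, Bool.true_and] at e1 e2
      have h1 := hmin r _ e1.symm _ rfl
      have h2 := hmin r' _ e2 _ rfl
      exact pos_ne G (x := (r.1, b r.1)) (y := (r'.1, b r'.1)) (by simp [hne]) (le_antisymm h1 h2)

/-- one more smoothing changes the number of curves by at most one -/
theorem step (G : GaussWord N) (R : Finset (Fin N)) (c : Fin N) (hc : c ∉ R) :
    L G (tR R) ≤ L G (tR (insert c R)) + 1 ∧ L G (tR (insert c R)) ≤ L G (tR R) + 1 := by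
  have e0 : tR R = update (tR R) c 0 := by
    rw [eq_comm, update_eq_self_iff]
    simp [tR, hc]
  have e1 : tR (insert c R) = update (tR R) c 1 := by
    funext d
    by_cases hd : d = c
    · subst hd; simp [tR]
    · rw [update_of_ne hd]; simp [tR, hd]
  obtain ⟨n, h⟩ := three_term G (tR R) c
  rw [← e0, ← e1] at h
  omega

theorem steps (G : GaussWord N) (R S : Finset (Fin N)) :
    L G (tR R) ≤ L G (tR (R ∪ S)) + S.card ∧ L G (tR (R ∪ S)) ≤ L G (tR R) + S.card := by
  classical
  induction S using Finset.induction_on with
  | empty => simp
  | insert c S hc ih =>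
    rw [card_insert_of_notMem hc, union_insert]
    by_cases h : c ∈ R ∪ S
    · rw [insert_eq_of_mem h]; omega
    · have := step G (R ∪ S) c h
      omega

theorem tR_univ : tR (univ : Finset (Fin N)) = tri fun _ => true := by
  funext c
  simp [tR, tri]

theorem tR_empty : tR (∅ : Finset (Fin N)) = fun _ => 0 := by
  funext c
  simp [tR]

/-- the number of Seifert circles is at most `N + 1` -/
theorem loops_le (G : GaussWord N) : loops G (fun _ => true) ≤ N + 1 := by
  rw [loops_eq, ← tR_univ]
  have h := (steps G ∅ univ).2
  rw [empty_union, card_univ, Fintype.card_fin] at h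
  rcases Nat.eq_zero_or_pos N with rfl | hN
  · have h0 : L G (tR (∅ : Finset (Fin 0))) = 0 := by
      unfold L
      have : IsEmpty (Half 0) := ⟨fun x => x.1.1.elim0⟩
      have : IsEmpty (Quot (gen (arcFun G) (smooth (tR (∅ : Finset (Fin 0)))))) :=
        ⟨fun q => by induction q using Quot.ind with | mk x => exact isEmptyElim x⟩
      exact Nat.card_of_isEmpty
    omega
  · rw [tR_empty, L_zero G ⟨0, hN⟩] at h
    omega

/-- **The canonical genus and matchings.** -/
theorem genus_le_matching (G : GaussWord N) (hN : 0 < N) : ∃ (m : ℕ) (u v : Fin m → Fin N),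
    IsMatching G u v ∧ N + 1 ≤ loops G (fun _ => true) + 4 * m := by
  classical
  obtain ⟨m, u, v, huv, hmax⟩ := exists_maximal G
  refine ⟨m, u, v, huv, ?_⟩
  set R := univ.filter fun i => ∀ k, u k ≠ i ∧ v k ≠ i with hR
  have h1 := laminar G R (fun i hi j hj => hmax i j (mem_filter.1 hi).2 (mem_filter.1 hj).2) hN
  have h2 := (steps G R (univ \ R)).1
  rw [union_sdiff_of_subset (subset_univ R), tR_univ, ← loops_eq] at h2
  have h3 : (univ \ R).card ≤ 2 * m := by
    have hsub : univ \ R ⊆ univ.image u ∪ univ.image v := by
      intro i hi
      rw [mem_sdiff, hR, mem_filter] at hi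
      have : ¬ ∀ k, u k ≠ i ∧ v k ≠ i := fun h => hi.2 ⟨mem_univ _, h⟩
      push Not at this
      obtain ⟨k, hk⟩ := this
      by_cases huk : u k = i
      · exact mem_union_left _ (mem_image.2 ⟨k, mem_univ _, huk⟩)
      · exact mem_union_right _ (mem_image.2 ⟨k, mem_univ _, hk huk⟩)
    refine (card_le_card hsub).trans ((card_union_le _ _).trans ?_)
    have a1 := card_image_le (s := (univ : Finset (Fin m))) (f := u)
    have a2 := card_image_le (s := (univ : Finset (Fin m))) (f := v)
    rw [card_univ, Fintype.card_fin] at a1 a2
    omega
  have h4 : (univ \ R).card + R.card = N := by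
    rw [card_sdiff_add_card_eq_card (subset_univ R), card_univ, Fintype.card_fin]
  omega

end Pool.Agent.J6H1.CG.GEN
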