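import Pool.Agent.J6H1.CG.Stm

/-!
# CG-HIGH: the number of nonzero coefficients for rows with many nonzero entries
-/

set_option autoImplicit false

namespace Pool.Agent.J6H1.CG

open Finset Function Pool.Agent.H832R2.JR

theorem t_HIGH : S_HIGH := by
  classical
  intro N ι _ _ A u D hD hk
  rcases Nat.eq_zero_or_pos (Fintype.card ι) with h0 | h0
  · have h1 : (univ.filter fun p : (Fin N → Bool) × (Fin N → Bool) =>
        2 * nz A u p < Fintype.card ι) = ∅ := by
      rw [filter_eq_empty_iff]
      intro p _
      omega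
    rw [h1, card_empty, Nat.cast_zero]
    positivity
  set P := univ.filter fun p : (Fin N → Bool) × (Fin N → Bool) =>
    2 * nz A u p < Fintype.card ι with hP
  have hcount : (P.card : ℝ) * (Fintype.card ι) ≤
      2 * ∑ k : ι, ((univ.filter fun p : (Fin N → Bool) × (Fin N → Bool) =>
        coef A u p.1 p.2 k = 0).card : ℝ) := by
    have e1 : ∑ k : ι, ((univ.filter fun p : (Fin N → Bool) × (Fin N → Bool) =>
        coef A u p.1 p.2 k = 0).card : ℝ) = ∑ p : (Fin N → Bool) × (Fin N → Bool),
          ((univ.filter fun k => coef A u p.1 p.2 k = 0).card : ℝ) := by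
      have e2 : ∀ k : ι, ((univ.filter fun p : (Fin N → Bool) × (Fin N → Bool) =>
        coef A u p.1 p.2 k = 0).card : ℝ) = ∑ p : (Fin N → Bool) × (Fin N → Bool),
          (if coef A u p.1 p.2 k = 0 then (1 : ℝ) else 0) := by
        intro k; simp
      rw [sum_congr rfl (fun k _ => e2 k), sum_comm]
      refine sum_congr rfl fun p _ => ?_
      simp
    rw [e1]
    calc (P.card : ℝ) * (Fintype.card ι) = ∑ p ∈ P, (Fintype.card ι : ℝ) := by
          rw [sum_const, nsmul_eq_mul]
      _ ≤ ∑ p ∈ P, 2 * ((univ.filter fun k => coef A u p.1 p.2 k = 0).card : ℝ) := by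
          refine sum_le_sum fun p hp => ?_
          rw [hP, mem_filter] at hp
          have e3 := card_filter_add_card_filter_not (s := (univ : Finset ι))
            (fun k => coef A u p.1 p.2 k = 0)
          rw [card_univ] at e3
          have e4 : Fintype.card ι ≤ 2 * (univ.filter fun k => coef A u p.1 p.2 k = 0).card := by
            have := hp.2
            unfold nz at this
            simp only [ne_eq] at this
            omega
          exact_mod_cast e4
      _ = 2 * ∑ p ∈ P, ((univ.filter fun k => coef A u p.1 p.2 k = 0).card : ℝ) := by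
          rw [mul_sum]
      _ ≤ _ := by
          refine mul_le_mul_of_nonneg_left ?_ (by norm_num)
          exact sum_le_sum_of_subset_of_nonneg (subset_univ _) (fun _ _ _ => by positivity)
  have h2 : ∑ k : ι, ((univ.filter fun p : (Fin N → Bool) × (Fin N → Bool) =>
        coef A u p.1 p.2 k = 0).card : ℝ) ≤ (Fintype.card ι) * (4 ^ N / √(D : ℝ)) := by
    refine (sum_le_sum fun k _ => row_zero A u k D hD (hk k)).trans (le_of_eq ?_)
    rw [sum_const, card_univ, nsmul_eq_mul]
  have hpos : (0 : ℝ) < Fintype.card ι := by exact_mod_cast h0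
  have h4 : (Fintype.card ι : ℝ) * P.card ≤ (Fintype.card ι : ℝ) * (4 ^ N * (2 / √(D : ℝ))) := by
    have h5 : (Fintype.card ι : ℝ) * (4 ^ N * (2 / √(D : ℝ))) =
        2 * ((Fintype.card ι) * (4 ^ N / √(D : ℝ))) := by ring
    rw [h5]
    linarith
  exact le_of_mul_le_mul_left h4 hpos

end Pool.Agent.J6H1.CG
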