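import Pool.Agent.J6H1.CG.Stm

/-! Item LOW. -/

set_option autoImplicit false

namespace Pool.Agent.J6H1.CG

open Finset Function Pool.Agent.H832R2.JR

namespace LOW

variable {N : ℕ} {ι : Type} [Fintype ι] [DecidableEq ι]

open Classical in
/-- the matrix with the block of the rows and columns `u l` removed -/
noncomputable def rem (A : Fin N → Fin N → ℤ) (u : ι → Fin N) (i j : Fin N) : ℤ :=
  if (∃ l, u l = i) ∧ (∃ l, u l = j) then 0 else A i j

open Classical in
theorem coef_eq (A : Fin N → Fin N → ℤ) (u : ι → Fin N) (I : Finset ι) (y y' : Fin N → Bool)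
    (k : I) : coef (rem A u) (fun k : I => u k) y y' k = coef A u y y' k := by
  unfold coef
  refine sum_congr rfl fun j _ => ?_
  by_cases h : ∃ l, u l = j
  · rw [if_pos h]
    by_cases h2 : ∃ l : I, u l = j
    · rw [if_pos h2]
    · rw [if_neg h2]
      unfold rem
      rw [if_pos ⟨⟨_, rfl⟩, h⟩, zero_mul]
  · rw [if_neg h, if_neg]
    · unfold rem
      rw [if_neg]
      rintro ⟨_, h3⟩
      exact h h3
    · rintro ⟨l, hl⟩
      exact h ⟨l, hl⟩

open Classical in
theorem nz_le (A : Fin N → Fin N → ℤ) (u : ι → Fin N) (I : Finset ι)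
    (p : (Fin N → Bool) × (Fin N → Bool)) :
    (univ.filter fun k : I => coef (rem A u) (fun k : I => u k) p.1 p.2 k ≠ 0).card ≤ nz A u p := by
  unfold nz
  refine card_le_card_of_injOn (fun k : I => (k : ι)) ?_ Subtype.val_injective.injOn
  intro k hk
  simp only [coe_filter, mem_univ, true_and, Set.mem_ofPred_eq] at hk ⊢
  rw [coef_eq] at hk
  exact hk

theorem pow_aux (n s : ℕ) (hs : 8 * s ≤ n) :
    (2 : ℝ) ^ s * (3 / 4) ^ n ≤ (5 / 6) ^ n := by
  have h2 : ((2 : ℝ) ^ s * (3 / 4) ^ n) ^ 8 ≤ ((5 / 6) ^ n) ^ 8 := by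
    calc ((2 : ℝ) ^ s * (3 / 4) ^ n) ^ 8 = 2 ^ (8 * s) * ((3 / 4) ^ 8) ^ n := by
          rw [mul_pow, ← pow_mul, ← pow_mul, ← pow_mul, mul_comm s 8, mul_comm n 8]
      _ ≤ 2 ^ n * ((3 / 4) ^ 8) ^ n := by
          gcongr
          · norm_num
      _ = (2 * (3 / 4) ^ 8) ^ n := by rw [mul_pow]
      _ ≤ ((5 / 6) ^ 8) ^ n := by
          gcongr
          norm_num
      _ = _ := by rw [← pow_mul, ← pow_mul, mul_comm]
  exact le_of_pow_le_pow_left₀ (by norm_num) (by positivity) h2

end LOW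

open Classical in
theorem t_LOW : S_LOW := by
  intro N ι _ _ A u v D s hM hD hs
  obtain ⟨I, -, hind, hIc⟩ := indep_set (fun k l => A (u k) (v l) ≠ 0) D (univ : Finset ι).card
    univ rfl (fun k _ => by
      have := hD k
      unfold mdeg at this
      convert this)
  rw [card_univ] at hIc
  have hI8 : 8 * s ≤ I.card := by
    have h1 : (8 * s) * (2 * D + 1) ≤ I.card * (2 * D + 1) := by
      rw [mul_comm I.card]
      exact hs.trans hIc
    exact Nat.le_of_mul_le_mul_right h1 (by omega)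
  have hnot : ∀ l, ¬ ∃ k, u k = v l := by
    rintro l ⟨k, hk⟩
    exact hM.huv k l hk
  have hrem : ∀ k l, LOW.rem A u (u k) (v l) = A (u k) (v l) := by
    intro k l
    unfold LOW.rem
    rw [if_neg]
    rintro ⟨_, h⟩
    exact hnot l h
  have h2 := lo_mgf (LOW.rem A u) (fun k : I => u k) (fun k : I => v k)
    (hM.hv.comp Subtype.val_injective) (fun k l => hM.huv k l)
    (fun k => by rw [hrem]; exact hM.hd k)
    (fun k l hkl => by
      rw [hrem]
      have := hind k k.2 l l.2 (fun h => hkl (Subtype.ext h))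
      simpa using this)
  rw [Fintype.card_coe] at h2
  set P := univ.filter fun p : (Fin N → Bool) × (Fin N → Bool) => nz A u p < s with hP
  have h3 : (P.card : ℝ) * (1 / 2) ^ s ≤ ∑ y : Fin N → Bool, ∑ y' : Fin N → Bool,
      (1 / 2 : ℝ) ^ (univ.filter fun k : I =>
        coef (LOW.rem A u) (fun k : I => u k) y y' k ≠ 0).card := by
    rw [← Fintype.sum_prod_type' (f := fun y y' =>
      (1 / 2 : ℝ) ^ (univ.filter fun k : I =>
        coef (LOW.rem A u) (fun k : I => u k) y y' k ≠ 0).card)]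
    calc (P.card : ℝ) * (1 / 2) ^ s = ∑ p ∈ P, (1 / 2 : ℝ) ^ s := by
          rw [sum_const, nsmul_eq_mul]
      _ ≤ ∑ p ∈ P, (1 / 2 : ℝ) ^ (univ.filter fun k : I =>
          coef (LOW.rem A u) (fun k : I => u k) p.1 p.2 k ≠ 0).card := by
          refine sum_le_sum fun p hp => ?_
          rw [hP, mem_filter] at hp
          exact pow_le_pow_of_le_one (by norm_num) (by norm_num)
            ((LOW.nz_le A u I p).trans hp.2.le)
      _ ≤ _ := sum_le_sum_of_subset_of_nonneg (subset_univ _) (fun _ _ _ => by positivity)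
  have h4 : (P.card : ℝ) ≤ 4 ^ N * (2 ^ s * (3 / 4) ^ I.card) := by
    have h5 := h3.trans h2
    rw [one_div, inv_pow, ← div_eq_mul_inv, div_le_iff₀ (by positivity)] at h5
    linarith
  refine h4.trans ?_
  have h6 := LOW.pow_aux I.card s hI8
  have h7 : ((5 : ℝ) / 6) ^ I.card ≤ (5 / 6) ^ (8 * s) :=
    pow_le_pow_of_le_one (by norm_num) (by norm_num) hI8
  have h8 : (0 : ℝ) ≤ 4 ^ N := by positivity
  exact mul_le_mul_of_nonneg_left (h6.trans h7) h8

end Pool.Agent.J6H1.CG
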