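import Pool.Agent.J6H1.CG.Stm

/-!
# CG, item PIG: the pigeonhole principle for the degrees
-/

set_option autoImplicit false

open Finset

namespace Pool.Agent.J6H1.CG

theorem t_PIG : S_PIG := by
  intro m d hm h1 h2
  classical
  let f : Fin m → ℕ := fun k => Nat.log 2 (d k)
  have hf : ∀ k ∈ (univ : Finset (Fin m)), f k ∈ Finset.range (Nat.log 2 m + 1) := by
    intro k _
    rw [Finset.mem_range]
    exact Nat.lt_succ_of_le (Nat.log_mono_right (h2 k))
  have hne : (Finset.range (Nat.log 2 m + 1)).Nonempty := ⟨0, by simp⟩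
  obtain ⟨i, -, hmax⟩ := Finset.exists_max_image (Finset.range (Nat.log 2 m + 1))
    (fun i => (univ.filter fun k => f k = i).card) hne
  have hc := Finset.card_le_mul_card_image_of_maps_to hf
    (univ.filter fun k => f k = i).card (fun b hb => hmax b hb)
  rw [Finset.card_univ, Fintype.card_fin, Finset.card_range] at hc
  refine ⟨2 ^ i, by positivity, ?_⟩
  have hsub : (univ.filter fun k => f k = i) ⊆
      univ.filter fun k => 2 ^ i ≤ d k ∧ d k ≤ 2 * 2 ^ i := by
    intro k hk
    rw [Finset.mem_filter] at hk ⊢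
    refine ⟨hk.1, ?_⟩
    have hk2 : Nat.log 2 (d k) = i := hk.2
    have h0 : d k ≠ 0 := by have := h1 k; omega
    constructor
    · rw [← hk2]
      exact Nat.pow_log_le_self 2 h0
    · have := Nat.lt_pow_succ_log_self (b := 2) (by norm_num) (d k)
      rw [hk2, pow_succ] at this
      omega
  calc m ≤ (univ.filter fun k => f k = i).card * (Nat.log 2 m + 1) := hc
    _ = (Nat.log 2 m + 1) * (univ.filter fun k => f k = i).card := by ring
    _ ≤ (Nat.log 2 m + 1) * (univ.filter fun k => 2 ^ i ≤ d k ∧ d k ≤ 2 * 2 ^ i).card :=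
        Nat.mul_le_mul_left _ (Finset.card_le_card hsub)

end Pool.Agent.J6H1.CG
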