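import Pool.Agent.J6H1.CG.Stm

/-!
# Item QLO of project CG: the quadratic Littlewood-Offord bound, assembly
-/

set_option autoImplicit false

namespace Pool.Agent.J6H1.CG

open Finset Function Pool.Agent.H832R2.JR

namespace QLO

lemma log_bound {m : ℕ} (hm : 1 ≤ m) : ((Nat.log 2 m + 1 : ℕ) : ℝ) ≤ 4 * Real.log (m + 2) := by
  have hm0 : (0 : ℝ) < m := by exact_mod_cast hm
  have hL : Real.log m ≤ Real.log (m + 2) := Real.log_le_log hm0 (by linarith)
  have hL3 : Real.log 2 ≤ Real.log (m + 2) := Real.log_le_log (by norm_num) (by linarith)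
  have h2 := Real.log_two_gt_d9
  have h1 : (Nat.log 2 m : ℝ) * Real.log 2 ≤ Real.log m := by
    have h3 : 2 ^ Nat.log 2 m ≤ m := Nat.pow_log_le_self 2 (by omega)
    have h4 : ((2 : ℝ) ^ Nat.log 2 m) ≤ m := by exact_mod_cast h3
    have h5 := Real.log_le_log (by positivity) h4
    rwa [Real.log_pow] at h5
  push_cast
  have h0 : (0 : ℝ) ≤ Nat.log 2 m := Nat.cast_nonneg _
  nlinarith

lemma sqrt_bound {m n : ℕ} (hm : 1 ≤ m) (hn : 1 ≤ n) (hnm : n ≤ m)
    (h : m ≤ (Nat.log 2 m + 1) * n) :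
    √(Real.log (n + 2) / n) ≤ 2 * Real.log (m + 2) / √(m : ℝ) := by
  have hm0 : (0 : ℝ) < m := by exact_mod_cast hm
  have hn0 : (0 : ℝ) < n := by exact_mod_cast hn
  have hnm' : (n : ℝ) ≤ m := by exact_mod_cast hnm
  have hLn : Real.log (n + 2) ≤ Real.log (m + 2) :=
    Real.log_le_log (by linarith) (by linarith)
  have hLn0 : 0 ≤ Real.log (n + 2) := Real.log_nonneg (by linarith)
  have hL0 : 0 ≤ Real.log (m + 2) := Real.log_nonneg (by linarith)
  have h1 : (m : ℝ) ≤ 4 * Real.log (m + 2) * n := by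
    have h2 : (m : ℝ) ≤ ((Nat.log 2 m + 1 : ℕ) : ℝ) * n := by exact_mod_cast h
    exact h2.trans (mul_le_mul_of_nonneg_right (log_bound hm) hn0.le)
  refine Real.sqrt_le_iff.2 ⟨by positivity, ?_⟩
  rw [div_pow, Real.sq_sqrt hm0.le, div_le_div_iff₀ hn0 hm0]
  calc Real.log (n + 2) * m ≤ Real.log (m + 2) * (4 * Real.log (m + 2) * n) :=
        mul_le_mul hLn h1 hm0.le hL0
    _ = (2 * Real.log (m + 2)) ^ 2 * n := by ring

end QLO

open QLO in
theorem t_QLO : S_QLO := by
  intro hDEC hLOW hHIGH hCOMB hPIG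
  obtain ⟨C, hC, hcomb⟩ := hCOMB hLOW hHIGH
  refine ⟨√(2 * C), by positivity, ?_⟩
  intro N m A u v c hM hm
  classical
  obtain ⟨d, hd⟩ : ∃ d : Fin m → ℕ, d = fun k => (univ.filter fun l => A (u k) (v l) ≠ 0).card :=
    ⟨_, rfl⟩
  have hd1 : ∀ k, 1 ≤ d k := by
    intro k
    rw [hd]
    exact card_pos.2 ⟨k, by simp [hM.hd k]⟩
  have hdm : ∀ k, d k ≤ m := by
    intro k
    rw [hd]
    exact (card_le_univ _).trans (by simp)
  obtain ⟨D, hD, hpig⟩ := hPIG m d hm hd1 hdm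
  set S : Finset (Fin m) := univ.filter fun k => D ≤ d k ∧ d k ≤ 2 * D with hS
  have hcard : Fintype.card {k // k ∈ S} = S.card := Fintype.card_coe S
  have hn1 : 1 ≤ S.card := by
    by_contra h0
    have h1 : S.card = 0 := by omega
    rw [h1, mul_zero] at hpig
    omega
  have hnm : S.card ≤ m := (card_le_univ _).trans (by simp)
  have hM' : Mat A (fun k : {k // k ∈ S} => u k) (fun k : {k // k ∈ S} => v k) :=
    { hA := hM.hA
      hu := fun a b h => Subtype.ext (hM.hu h)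
      hv := fun a b h => Subtype.ext (hM.hv h)
      huv := fun k l => hM.huv k l
      hd := fun k => hM.hd k }
  have hkS : ∀ k : {k // k ∈ S}, D ≤ d k ∧ d k ≤ 2 * D := fun k => (mem_filter.1 k.2).2
  have hr : ∀ k : {k // k ∈ S}, D ≤ rdeg A (fun k : {k // k ∈ S} => u k) k := by
    intro k
    refine (hkS k).1.trans ?_
    rw [hd]
    unfold rdeg
    refine card_le_card_of_injOn v (fun l hl => ?_) (hM.hv.injOn)
    have hl' : A (u k) (v l) ≠ 0 := by simpa using hl
    simp only [coe_filter, mem_univ, true_and, Set.mem_ofPred_eq]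
    refine ⟨?_, hl'⟩
    rintro ⟨l', hl''⟩
    exact hM.huv _ _ hl''
  have hmd : ∀ k : {k // k ∈ S}, mdeg A (fun k : {k // k ∈ S} => u k)
      (fun k : {k // k ∈ S} => v k) k ≤ 2 * D := by
    intro k
    refine le_trans ?_ (hkS k).2
    rw [hd]
    unfold mdeg
    refine card_le_card_of_injOn (fun l : {k // k ∈ S} => (l : Fin m)) (fun l hl => ?_)
      (Subtype.val_injective.injOn)
    have hl' : l ≠ k ∧ A (u k) (v l) ≠ 0 := by simpa using hl
    simp only [coe_filter, mem_univ, true_and, Set.mem_ofPred_eq]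
    exact hl'.2
  have h1 := hDEC N {k // k ∈ S} inferInstance inferInstance A (fun k => u k) c hM.hA hM'.hu
  have h2 := hcomb N {k // k ∈ S} inferInstance inferInstance A _ _ D hM' hD hr hmd
    (by rw [hcard]; exact hn1)
  rw [hcard] at h2
  have h3 := sqrt_bound hm hn1 hnm hpig
  have hm0 : (0 : ℝ) < m := by exact_mod_cast hm
  have hL0 : 0 ≤ Real.log ((m : ℝ) + 2) := Real.log_nonneg (by linarith)
  have h4 : ((univ.filter fun w => Q A w = c).card : ℝ) ^ 2 ≤
      4 ^ N * (C * (2 * Real.log (m + 2) / √(m : ℝ))) := by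
    refine (h1.trans h2).trans ?_
    gcongr
  have hsm : 0 < √(m : ℝ) := Real.sqrt_pos.2 hm0
  have h5 : ((m : ℝ) ^ (1 / 4 : ℝ)) ^ 2 = √(m : ℝ) := by
    rw [Real.sqrt_eq_rpow, ← Real.rpow_natCast, ← Real.rpow_mul hm0.le]
    norm_num
  have h6 : (((univ.filter fun w => Q A w = c).card : ℝ) * (m : ℝ) ^ (1 / 4 : ℝ)) ^ 2 ≤
      (√(2 * C) * √(Real.log (m + 2)) * 2 ^ N) ^ 2 := by
    rw [mul_pow, h5, mul_pow, mul_pow, Real.sq_sqrt (by positivity), Real.sq_sqrt hL0]
    calc ((univ.filter fun w => Q A w = c).card : ℝ) ^ 2 * √(m : ℝ)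
        ≤ 4 ^ N * (C * (2 * Real.log (m + 2) / √(m : ℝ))) * √(m : ℝ) :=
          mul_le_mul_of_nonneg_right h4 hsm.le
      _ = 2 * C * Real.log (m + 2) * 4 ^ N := by
          field_simp
      _ = 2 * C * Real.log (m + 2) * (2 ^ N) ^ 2 := by
          rw [← pow_mul, mul_comm N 2, pow_mul]
          norm_num
  exact (pow_le_pow_iff_left₀ (by positivity) (by positivity) two_ne_zero).1 h6

end Pool.Agent.J6H1.CG
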