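import Pool.Agent.H832R2.JR.Moment
import Pool.Agent.H832R2.JR.Matching
import Pool.Agent.H832R2.JR.Classes

/-!
# Project CG (helper1), HARD problem MP_7bc610_gt: canonical genus and the Jones polynomial

**Goal.** Let `G` be the shadow of a knot diagram (planar or not) with `N` crossings and `s` Seifert
circles, `g = (N + 1 - s) / 2` its canonical genus (the genus of the Seifert surface of the diagram,
it does not depend on the crossings).  Then at most the proportion
`C √(log (2 + g)) / (1 + g)^(1/4)` of the `2^N` choices of the crossings has a given Jones polynomial.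
The start theorem `RandomCrossings` has `m^(-1/8)`, `m` the number of disjoint pairs of crossing chords.

Part 1 (this file): a better quadratic Littlewood-Offord bound for symmetric integer matrices with a
matching, `C √(log m) / m^(1/4)`.  Part 2 (helper1): `m ≥ g / 2`.

Proof of part 1.  Decoupling (item DEC): the square of the proportion is at most the mean over
`p = (y, y')` of `rr (nz p)`, `rr n = min 1 (1/√n)`, `nz p` the number of rows `u k` with a nonzero
coefficient.  We restrict to rows the degrees of which are in `[D, 2 D]` (item PIG), `n` rows.  Then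
`nz ≥ n / 2` outside of a set of measure `2 / √D` (item HIGH), and always `nz ≥ n / (200 D)` outside
of an exponentially small set (item LOW), and these two facts give the mean `O(√(log n / n))`
(item COMB).

Every item is an independent module: prove `theorem t_XXX : S_XXX` in `Pool/Agent/J6H1/CG/XXX.lean`,
namespace `Pool.Agent.J6H1.CG` (own lemmas in `Pool.Agent.J6H1.CG.XXX`), importing this file.
-/

set_option autoImplicit false

namespace Pool.Agent.J6H1.CG

open Finset Function Pool.Agent.H832R2.JR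

/-- `min 1 (1 / √n)` -/
noncomputable def rr (n : ℕ) : ℝ := if n = 0 then 1 else 1 / √(n : ℝ)

open Classical in
/-- the number of nonzero coefficients of the decoupled linear form -/
noncomputable def nz {N : ℕ} {ι : Type} [Fintype ι] [DecidableEq ι] (A : Fin N → Fin N → ℤ)
    (u : ι → Fin N) (p : (Fin N → Bool) × (Fin N → Bool)) : ℕ :=
  (univ.filter fun k => coef A u p.1 p.2 k ≠ 0).card

open Classical in
/-- the number of nonzero entries of the row `u k` outside of the columns `u l` -/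
noncomputable def rdeg {N : ℕ} {ι : Type} [Fintype ι] [DecidableEq ι] (A : Fin N → Fin N → ℤ)
    (u : ι → Fin N) (k : ι) : ℕ :=
  (univ.filter fun j => (¬ ∃ l, u l = j) ∧ A (u k) j ≠ 0).card

open Classical in
/-- the number of other nonzero entries of the row `u k` in the columns `v l` -/
noncomputable def mdeg {N : ℕ} {ι : Type} [Fintype ι] [DecidableEq ι] (A : Fin N → Fin N → ℤ)
    (u v : ι → Fin N) (k : ι) : ℕ :=
  (univ.filter fun l => l ≠ k ∧ A (u k) (v l) ≠ 0).card

/-- two injective families of indices, disjoint, with nonzero entries `A (u k) (v k)` -/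
structure Mat {N : ℕ} {ι : Type} (A : Fin N → Fin N → ℤ) (u v : ι → Fin N) : Prop where
  hA : ∀ i j, A i j = A j i
  hu : Injective u
  hv : Injective v
  huv : ∀ k l, u k ≠ v l
  hd : ∀ k, A (u k) (v k) ≠ 0

/-- Item DEC (about 60 lines).

Proof. As in the proof of `decouple_LO` (H832R2/JR/Decouple.lean) but with the exact bound: by
`decouple`, `card² * 2^|ι| ≤ ∑_y ∑_y' #{x | Q A (extend u x y) = Q A (extend u x y')}`, and by `Q_diff`
and `LO` the number of these `x` is at most `2^|ι| / √(nz)` (for `nz ≠ 0`), and at most `2^|ι|`. -/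
def S_DEC : Prop := ∀ (N : ℕ) (ι : Type) (_ : Fintype ι) (_ : DecidableEq ι)
  (A : Fin N → Fin N → ℤ) (u : ι → Fin N) (c : ℤ), (∀ i j, A i j = A j i) → Injective u →
  ((univ.filter fun w => Q A w = c).card : ℝ) ^ 2 ≤
    ∑ p : (Fin N → Bool) × (Fin N → Bool), rr (nz A u p)

open Classical in
/-- Item LOW (about 100 lines).

Proof. `indep_set` (H832R2/JR/Matching.lean), applied to `S = univ`, `R k l := A (u k) (v l) ≠ 0`,
gives `I : Finset ι` with `A (u k) (v l) = 0` for different `k, l ∈ I` and `|ι| ≤ (2 D + 1) |I|`, so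
`8 s ≤ |I|`.  Let `A' i j = A i j`, except that `A' i j = 0` if both `i` and `j` are among the `u l`,
`l : ι`.  Then for `k ∈ I`: `coef A u y y' k = coef A' (u restricted to I) y y' k` (the terms with `j`
among the `u l` are `0` on both sides), and `lo_mgf` (H832R2/JR/HiLo.lean), applied to `A'` and to the
restrictions of `u, v` to `I`, gives `∑_y ∑_y' (1/2)^(nz A' (u|I) (y, y')) ≤ 4^N (3/4)^|I|`.  As
`nz A u p ≥ nz A' (u|I) p`, Markov's inequality gives
`#{p | nz A u p < s} ≤ 2^s 4^N (3/4)^|I| ≤ 4^N (5/6)^|I| ≤ 4^N (5/6)^(8 s)`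
(`2^s (3/4)^n ≤ (5/6)^n` for `8 s ≤ n` as in the proof of `pow_bound`). -/
def S_LOW : Prop := ∀ (N : ℕ) (ι : Type) (_ : Fintype ι) (_ : DecidableEq ι)
  (A : Fin N → Fin N → ℤ) (u v : ι → Fin N) (D s : ℕ), Mat A u v → (∀ k, mdeg A u v k ≤ D) →
  8 * s * (2 * D + 1) ≤ Fintype.card ι →
  ((univ.filter fun p => nz A u p < s).card : ℝ) ≤ 4 ^ N * (5 / 6) ^ (8 * s)

open Classical in
/-- Item HIGH (about 50 lines; contained in the proof of `hi_case`, H832R2/JR/HiLo.lean).

Proof. If `2 nz p < |ι|` then more than half of the coefficients are zero; by `row_zero` and Markov's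
inequality `#{p | 2 nz p < |ι|} * |ι| / 2 ≤ ∑_k #{p | coef k = 0} ≤ |ι| 4^N / √D` (`|ι| ≥ 1`, otherwise
the left side is `0`). -/
def S_HIGH : Prop := ∀ (N : ℕ) (ι : Type) (_ : Fintype ι) (_ : DecidableEq ι)
  (A : Fin N → Fin N → ℤ) (u : ι → Fin N) (D : ℕ), 0 < D → (∀ k, D ≤ rdeg A u k) →
  ((univ.filter fun p => 2 * nz A u p < Fintype.card ι).card : ℝ) ≤ 4 ^ N * (2 / √(D : ℝ))

/-- Item COMB (about 120 lines, real inequalities).

Proof. Let `n = |ι| ≥ 1`.  Put `s = n / (8 (2 D' + 1))` (natural division), `D' = 2 D`, so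
`s > n / (8 (2 D' + 1)) - 1 ≥ n / (40 D) - 1`.  `rr` is decreasing and `≤ 1`.
Case 1: `s < 6 log (n + 2)`.  Then `D ≥ c n / log (n + 2)`, and by HIGH
`∑ rr ≤ 4^N (2 / √D + √2 / √n)`, which is at most `C √(log (n + 2) / n) 4^N`.
Case 2: `s ≥ 6 log (n + 2)`; then `s ≥ 1` and `s + 1 ≤ 2 s`, so `s ≥ n / (80 D)`, and splitting the sum
at `nz < s`, `s ≤ nz`, `2 nz < n`, and `2 nz ≥ n`:
`∑ rr ≤ 4^N ((5/6)^(8 s) + (2 / √D) (1 / √s) + √2 / √n)`, where
`(5/6)^(8 s) ≤ exp (- s) ≤ 1 / (n + 2)` (`(5/6)^8 < 0.24 < exp (-1)`), and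
`(2 / √D) (1 / √s) ≤ 2 √80 / √n`.  All are at most `C √(log (n + 2) / n)` as `log (n + 2) ≥ 1`
(`n + 2 ≥ 3`). -/
def S_COMB : Prop := S_LOW → S_HIGH → ∃ C : ℝ, 0 < C ∧ ∀ (N : ℕ) (ι : Type) (_ : Fintype ι)
  (_ : DecidableEq ι) (A : Fin N → Fin N → ℤ) (u v : ι → Fin N) (D : ℕ), Mat A u v → 0 < D →
  (∀ k, D ≤ rdeg A u k) → (∀ k, mdeg A u v k ≤ 2 * D) → 1 ≤ Fintype.card ι →
  ∑ p : (Fin N → Bool) × (Fin N → Bool), rr (nz A u p) ≤
    4 ^ N * (C * √(Real.log (Fintype.card ι + 2) / Fintype.card ι))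

/-- Item PIG (about 40 lines).

Proof. `d k ∈ [2^i, 2^(i+1))` for `i = Nat.log 2 (d k) ≤ Nat.log 2 m`: one of the `Nat.log 2 m + 1`
values `i` is taken by at least `m / (Nat.log 2 m + 1)` of the `k`
(`Finset.exists_lt_card_fiber...` or `exists_le_of_sum_le`); put `D = 2^i`. -/
def S_PIG : Prop := ∀ (m : ℕ) (d : Fin m → ℕ), 1 ≤ m → (∀ k, 1 ≤ d k) → (∀ k, d k ≤ m) →
  ∃ D : ℕ, 0 < D ∧ m ≤ (Nat.log 2 m + 1) * (univ.filter fun k => D ≤ d k ∧ d k ≤ 2 * D).card

/-- Item QLO (about 120 lines).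

Proof. Let `d k = #{l | A (u k) (v l) ≠ 0}`, so `1 ≤ d k ≤ m`.  Take `D` from PIG and let `ι` be the
subtype of the `k` with `D ≤ d k ≤ 2 D`, `n = |ι|`, `m ≤ (Nat.log 2 m + 1) n`.  The restrictions of
`u, v` to `ι` satisfy `Mat`, `D ≤ d k ≤ rdeg` (the columns `v l`, `l : Fin m`, are not among the `u k`,
and `v` is injective), `mdeg ≤ d k ≤ 2 D`.  By DEC and COMB `card² ≤ 4^N C √(log (n + 2) / n)`, and
`log (n + 2) ≤ log (m + 2)`, `1 / n ≤ (Nat.log 2 m + 1) / m ≤ 4 log (m + 2) / m`, so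
`card² ≤ 4^N 2 C log (m + 2) / √m`.  (The square root of this is the statement.) -/
def S_QLO : Prop := S_DEC → S_LOW → S_HIGH → S_COMB → S_PIG → ∃ C : ℝ, 0 < C ∧
  ∀ (N m : ℕ) (A : Fin N → Fin N → ℤ) (u v : Fin m → Fin N) (c : ℤ), Mat A u v → 1 ≤ m →
  ((univ.filter fun w => Q A w = c).card : ℝ) * (m : ℝ) ^ (1 / 4 : ℝ) ≤
    C * √(Real.log (m + 2)) * 2 ^ N

end Pool.Agent.J6H1.CG
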